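import Pool.Agent.H257R5.Pierce

set_option autoImplicit false

namespace Pool.Agent.H257R5.Eleven

open Pool.Agent.H257R5.Pierce

/-- the 22 points with the masks of the polygons that contain them -/
def W : List ((ℤ × ℤ) × ℕ) := [
  ((12, 24), 1362),
  ((14, 19), 1474),
  ((3, 11), 1078),
  ((6, 12), 1190),
  ((16, 15), 1252),
  ((24, 23), 773),
  ((22, 26), 657),
  ((20, 24), 912),
  ((5, 37), 1091),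
  ((18, 16), 1604),
  ((16, 9), 1570),
  ((18, 15), 1632),
  ((28, 22), 269),
  ((39, 39), 153),
  ((19, 16), 588),
  ((17, 11), 554),
  ((18, 14), 616),
  ((17, 12), 1576),
  ((10, 31), 81),
  ((36, 20), 289),
  ((21, 21), 644),
  ((35, 20), 296)]

/-- the certificates -/
def cs : List Cert := [
  ⟨1, 3, 10, (5, 2, 108), (-1, 0, -17), (3, -1, 39), (1, 11, 2)⟩,
  ⟨3, 8, 9, (-23, 20, -117), (1, -22, -404), (7, -4, 76), (25, 8, 81)⟩,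
  ⟨0, 3, 9, (-4, -7, -257), (-23, 20, -117), (3, 2, 118), (106, 13, 241)⟩,
  ⟨3, 5, 7, (-1, 0, -17), (-5, 19, 205), (3, -10, -102), (7, 10, 19)⟩,
  ⟨0, 3, 5, (-1, -4, -116), (1, -2, -5), (0, 1, 20), (1, 1, 6)⟩,
  ⟨2, 3, 5, (1, -3, -29), (-1, 0, -17), (-3, 10, 102), (10, 1, 3)⟩,
  ⟨3, 4, 5, (-1, 0, -17), (13, -17, -148), (0, 1, 20), (13, 1, 17)⟩,
  ⟨3, 6, 7, (-2, 1, -22), (6, 5, 215), (24, -23, 39), (129, 11, 8)⟩,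
  ⟨3, 6, 8, (-2, 1, -22), (6, 5, 215), (1, -22, -404), (137, 43, 16)⟩,
  ⟨0, 3, 6, (-1, -4, -116), (-1, 0, -17), (6, 5, 215), (5, 19, 4)⟩,
  ⟨3, 4, 6, (-1, 0, -17), (13, -17, -148), (5, 3, 143), (124, 3, 17)⟩,
  ⟨2, 3, 7, (1, 4, 116), (-23, 20, -117), (24, -23, 39), (7, 17, 16)⟩,
  ⟨1, 3, 7, (5, 2, 108), (-1, 0, -17), (3, -10, -102), (5, 28, 1)⟩,
  ⟨1, 3, 8, (8, 3, 169), (-1, 0, -17), (-5, -2, -108), (2, 1, 3)⟩,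
  ⟨0, 1, 3, (-6, -5, -215), (5, 2, 108), (-1, 0, -17), (2, 5, 13)⟩,
  ⟨1, 2, 3, (5, 2, 108), (1, -3, -29), (-1, 0, -17), (3, 2, 17)⟩,
  ⟨2, 3, 4, (1, 4, 116), (-2, 1, -22), (13, -17, -148), (7, 23, 3)⟩,
  ⟨1, 3, 4, (5, 2, 108), (-1, 0, -17), (13, -17, -148), (17, 111, 2)⟩,
  ⟨0, 7, 10, (-1, -4, -116), (-13, 17, 156), (1, 0, 18), (17, 4, 69)⟩,
  ⟨2, 8, 10, (-4, 7, 65), (1, -22, -404), (21, 13, 586), (475, 199, 81)⟩,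
  ⟨0, 4, 10, (-6, -5, -215), (-20, 7, 17), (21, 13, 586), (407, 27, 142)⟩,
  ⟨5, 7, 9, (-5, 19, 205), (3, -10, -102), (-15, 4, -204), (138, 265, 7)⟩,
  ⟨2, 5, 9, (1, -3, -29), (-3, 10, 102), (-15, 4, -204), (138, 41, 1)⟩,
  ⟨4, 5, 9, (13, -17, -148), (0, 1, 20), (-1, 1, 4), (1, 4, 13)⟩,
  ⟨6, 7, 9, (5, 3, 143), (24, -23, 39), (-15, 4, -204), (249, 65, 187)⟩,
  ⟨6, 8, 9, (5, 3, 143), (1, -22, -404), (-15, 4, -204), (326, 65, 113)⟩,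
  ⟨0, 6, 9, (-6, -5, -215), (5, 3, 143), (-1, 1, 4), (8, 11, 7)⟩,
  ⟨4, 6, 9, (13, -17, -148), (6, 5, 215), (-1, 1, 4), (11, 4, 167)⟩,
  ⟨1, 8, 9, (8, 3, 169), (-5, -2, -108), (-1, 1, 4), (7, 11, 1)⟩,
  ⟨0, 1, 9, (-6, -5, -215), (5, 2, 108), (-1, 1, 4), (7, 11, 13)⟩,
  ⟨1, 2, 9, (5, 2, 108), (1, -3, -29), (-15, 4, -204), (41, 50, 17)⟩,
  ⟨1, 4, 9, (5, 2, 108), (13, -17, -148), (-1, 1, 4), (4, 7, 111)⟩,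
  ⟨1, 5, 6, (5, 2, 108), (-1, 3, 30), (-1, -2, -46), (5, 8, 17)⟩,
  ⟨4, 5, 6, (13, -17, -148), (-1, 3, 30), (-1, -2, -46), (5, 43, 22)⟩,
  ⟨0, 5, 7, (-1, -4, -116), (0, 1, 20), (3, -10, -102), (3, 22, 1)⟩,
  ⟨4, 5, 7, (15, -19, -156), (0, 1, 20), (-7, 8, 54), (7, 13, 15)⟩,
  ⟨2, 5, 8, (4, -13, -131), (-3, 10, 102), (1, -22, -404), (56, 75, 1)⟩,
  ⟨1, 5, 8, (8, 3, 169), (-1, 3, 30), (-5, -2, -108), (17, 1, 27)⟩,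
  ⟨0, 2, 5, (-1, -4, -116), (1, -3, -29), (0, 1, 20), (1, 1, 7)⟩,
  ⟨0, 1, 5, (-6, -5, -215), (2, -1, 23), (-1, 3, 30), (5, 23, 16)⟩,
  ⟨0, 4, 5, (-6, -5, -215), (13, -17, -148), (0, 1, 20), (13, 6, 167)⟩,
  ⟨4, 6, 7, (13, -17, -148), (6, 5, 215), (-7, 8, 54), (83, 15, 167)⟩,
  ⟨0, 6, 8, (-4, -7, -257), (2, -1, 22), (1, 4, 116), (1, 1, 2)⟩,
  ⟨2, 6, 8, (-4, 7, 65), (5, 3, 143), (1, -22, -404), (113, 81, 47)⟩,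
  ⟨0, 2, 6, (-4, -7, -257), (1, 4, 116), (2, -1, 22), (1, 2, 1)⟩,
  ⟨1, 2, 6, (5, 2, 108), (-4, 7, 65), (-2, -1, -47), (18, 1, 43)⟩,
  ⟨0, 7, 8, (-4, -7, -257), (24, -23, 39), (1, 4, 116), (119, 9, 260)⟩,
  ⟨0, 2, 7, (-4, -7, -257), (1, 4, 116), (24, -23, 39), (119, 260, 9)⟩,
  ⟨0, 1, 7, (-6, -5, -215), (5, 2, 108), (-13, 17, 156), (111, 167, 13)⟩,
  ⟨2, 4, 7, (-4, 7, 65), (13, -17, -148), (3, -10, -102), (79, 19, 23)⟩,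
  ⟨1, 4, 7, (5, 2, 108), (15, -19, -156), (-7, 8, 54), (13, 54, 125)⟩,
  ⟨0, 1, 8, (-4, -7, -257), (2, -1, 23), (1, 4, 116), (1, 1, 2)⟩,
  ⟨0, 4, 8, (-4, -7, -257), (13, -17, -148), (0, 1, 24), (13, 4, 159)⟩,
  ⟨1, 2, 8, (8, 3, 169), (-4, 7, 65), (-5, -2, -108), (43, 1, 68)⟩,
  ⟨0, 1, 2, (-4, -7, -257), (2, -1, 23), (1, 4, 116), (1, 1, 2)⟩,
  ⟨0, 2, 4, (-4, -7, -257), (1, 4, 116), (13, -17, -148), (23, 53, 3)⟩,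
  ⟨0, 1, 4, (-6, -5, -215), (8, 3, 169), (-20, 7, 17), (58, 71, 11)⟩]

theorem chk : chkAll 11 3 W cs = true := by decide +kernel

end Pool.Agent.H257R5.Eleven
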