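import Mathlib

/-! A checker for finite families of convex polygons in the plane with the (4,3)-property that cannot be
pierced by `r` points. The family is given by a list `W` of integer points, each with a bit mask; polygon `i` is the
convex hull of the points of `W` whose mask contains the bit `i`. -/

set_option autoImplicit false

namespace Pool.Agent.H257R5.Pierce

/-- the plane -/
abbrev Pl := EuclideanSpace ℝ (Fin 2)

/-- the integer point `p` -/
noncomputable def pt (p : ℤ × ℤ) : Pl := !₂[(p.1 : ℝ), (p.2 : ℝ)]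

/-- the polygon with index `i`: convex hull of the points of `W` with bit `i` in their mask -/
def K (W : List ((ℤ × ℤ) × ℕ)) (i : ℕ) : Set Pl :=
  convexHull ℝ {x | ∃ w ∈ W, w.2.testBit i = true ∧ x = pt w.1}

lemma K_convex (W : List ((ℤ × ℤ) × ℕ)) (i : ℕ) : Convex ℝ (K W i) := convex_convexHull ℝ _

lemma gen_finite (W : List ((ℤ × ℤ) × ℕ)) (i : ℕ) :
    {x : Pl | ∃ w ∈ W, w.2.testBit i = true ∧ x = pt w.1}.Finite := by
  classical
  have : {x : Pl | ∃ w ∈ W, w.2.testBit i = true ∧ x = pt w.1} ⊆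
      (fun w : (ℤ × ℤ) × ℕ => pt w.1) '' {w | w ∈ W} := by
    rintro x ⟨w, hw, -, rfl⟩
    exact ⟨w, hw, rfl⟩
  exact ((List.finite_toSet W).image _).subset this

lemma K_compact (W : List ((ℤ × ℤ) × ℕ)) (i : ℕ) : IsCompact (K W i) :=
  Set.Finite.isCompact_convexHull (𝕜 := ℝ) (gen_finite W i)

lemma mem_K {W : List ((ℤ × ℤ) × ℕ)} {i : ℕ} {w : (ℤ × ℤ) × ℕ} (hw : w ∈ W) (hi : w.2.testBit i = true) :
    pt w.1 ∈ K W i :=
  subset_convexHull ℝ _ ⟨w, hw, hi, rfl⟩

/-- a half plane `a x + b y ≤ c`, given by the integers `(a, b, c)` -/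
def InH (h : ℤ × ℤ × ℤ) (x : Pl) : Prop := (h.1 : ℝ) * x 0 + (h.2.1 : ℝ) * x 1 ≤ (h.2.2 : ℝ)

lemma InH_convex (h : ℤ × ℤ × ℤ) : Convex ℝ {x : Pl | InH h x} := by
  intro x hx y hy a b ha hb hab
  change InH h _
  have hx' : InH h x := hx
  have hy' : InH h y := hy
  simp only [InH, PiLp.add_apply, PiLp.smul_apply, smul_eq_mul] at *
  have h1 := mul_le_mul_of_nonneg_left hx' ha
  have h2 := mul_le_mul_of_nonneg_left hy' hb
  have h3 : (h.2.2 : ℝ) = a * h.2.2 + b * h.2.2 := by rw [← add_mul, hab, one_mul]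
  rw [h3]
  linarith

/-- all generating points of polygon `i` lie in the half plane -/
def chkH (W : List ((ℤ × ℤ) × ℕ)) (i : ℕ) (h : ℤ × ℤ × ℤ) : Bool :=
  W.all fun w => !(w.2.testBit i) || decide (h.1 * w.1.1 + h.2.1 * w.1.2 ≤ h.2.2)

lemma K_sub {W : List ((ℤ × ℤ) × ℕ)} {i : ℕ} {h : ℤ × ℤ × ℤ} (hc : chkH W i h = true) {x : Pl}
    (hx : x ∈ K W i) : InH h x := by
  have : K W i ⊆ {x : Pl | InH h x} := by
    apply convexHull_min _ (InH_convex h)
    rintro y ⟨w, hw, hi, rfl⟩
    have h1 := (List.all_eq_true.1 hc) w hw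
    rw [hi] at h1
    simp only [Bool.not_true, Bool.false_or, decide_eq_true_eq] at h1
    have h3 : ((h.1 * w.1.1 + h.2.1 * w.1.2 : ℤ) : ℝ) ≤ ((h.2.2 : ℤ) : ℝ) := Int.cast_le.2 h1
    change InH h _
    simp only [InH, pt]
    push_cast at h3
    simpa using h3
  exact this hx

/-- a certificate that three polygons have no common point -/
structure Cert where
  /-- first index -/
  i : ℕ
  /-- second index -/
  j : ℕ
  /-- third index -/
  k : ℕ
  /-- half plane containing polygon `i` -/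
  hi : ℤ × ℤ × ℤ
  /-- half plane containing polygon `j` -/
  hj : ℤ × ℤ × ℤ
  /-- half plane containing polygon `k` -/
  hk : ℤ × ℤ × ℤ
  /-- the multipliers -/
  l : ℕ × ℕ × ℕ

/-- the check of a certificate -/
def Cert.ok (W : List ((ℤ × ℤ) × ℕ)) (c : Cert) : Bool :=
  chkH W c.i c.hi && chkH W c.j c.hj && chkH W c.k c.hk &&
    decide ((c.l.1 : ℤ) * c.hi.1 + c.l.2.1 * c.hj.1 + c.l.2.2 * c.hk.1 = 0) &&
    decide ((c.l.1 : ℤ) * c.hi.2.1 + c.l.2.1 * c.hj.2.1 + c.l.2.2 * c.hk.2.1 = 0) &&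
    decide ((c.l.1 : ℤ) * c.hi.2.2 + c.l.2.1 * c.hj.2.2 + c.l.2.2 * c.hk.2.2 < 0)

lemma Cert.sound {W : List ((ℤ × ℤ) × ℕ)} {c : Cert} (h : c.ok W = true) (x : Pl) :
    ¬ (x ∈ K W c.i ∧ x ∈ K W c.j ∧ x ∈ K W c.k) := by
  rintro ⟨h1, h2, h3⟩
  simp only [Cert.ok, Bool.and_eq_true, decide_eq_true_eq] at h
  obtain ⟨⟨⟨⟨⟨a1, a2⟩, a3⟩, a4⟩, a5⟩, a6⟩ := h
  have e1 := K_sub a1 h1
  have e2 := K_sub a2 h2
  have e3 := K_sub a3 h3
  unfold InH at e1 e2 e3
  have b4 : ((c.l.1 : ℝ) * c.hi.1 + c.l.2.1 * c.hj.1 + c.l.2.2 * c.hk.1 = 0) := by exact_mod_cast a4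
  have b5 : ((c.l.1 : ℝ) * c.hi.2.1 + c.l.2.1 * c.hj.2.1 + c.l.2.2 * c.hk.2.1 = 0) := by exact_mod_cast a5
  have b6 : ((c.l.1 : ℝ) * c.hi.2.2 + c.l.2.1 * c.hj.2.2 + c.l.2.2 * c.hk.2.2 < 0) := by exact_mod_cast a6
  have p1 : (0 : ℝ) ≤ c.l.1 := Nat.cast_nonneg _
  have p2 : (0 : ℝ) ≤ c.l.2.1 := Nat.cast_nonneg _
  have p3 : (0 : ℝ) ≤ c.l.2.2 := Nat.cast_nonneg _
  have q1 := mul_le_mul_of_nonneg_left e1 p1
  have q2 := mul_le_mul_of_nonneg_left e2 p2
  have q3 := mul_le_mul_of_nonneg_left e3 p3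
  have : ((c.l.1 : ℝ) * c.hi.1 + c.l.2.1 * c.hj.1 + c.l.2.2 * c.hk.1) * x 0 +
      ((c.l.1 : ℝ) * c.hi.2.1 + c.l.2.1 * c.hj.2.1 + c.l.2.2 * c.hk.2.1) * x 1 < 0 := by
    nlinarith
  rw [b4, b5] at this
  simp at this

/-! ### the covering search -/

/-- `search r by b ms`: for every way to put the remaining vertices (one for each entry of `by`, the first has
bit `b`) into `r` classes (with present masks `ms`) some class contains one of the forbidden sets -/
def search (r : ℕ) : List (List ℕ) → ℕ → List ℕ → Bool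
  | [], _, _ => false
  | L :: rest, b, ms => (List.range r).all fun c =>
      (L.any fun q => Nat.beq (Nat.land (ms.getD c 0) q) q) ||
        search r rest (2 * b) (ms.set c (Nat.lor (ms.getD c 0) b))

lemma search_sound (r : ℕ) (col : ℕ → ℕ) (hcol : ∀ i, col i < r) :
    ∀ (F : List (List ℕ)) (v : ℕ) (ms : List ℕ), ms.length = r →
      (∀ c < r, ∀ i, (ms.getD c 0).testBit i = true ↔ (i < v ∧ col i = c)) →
      search r F (2 ^ v) ms = true →
      ∃ u, ∃ (hu : u < F.length), ∃ q ∈ F[u], ∀ i, q.testBit i = true → i < v + u ∧ col i = col (v + u) := by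
  intro F
  induction F with
  | nil => intro v ms _ _ h; simp [search] at h
  | cons L rest ih =>
    intro v ms hlen hms h
    rw [search, List.all_eq_true] at h
    have h1 := h (col v) (List.mem_range.2 (hcol v))
    rw [Bool.or_eq_true] at h1
    rcases h1 with h1 | h1
    · obtain ⟨q, hq, hq2⟩ := List.any_eq_true.1 h1
      refine ⟨0, by simp, q, by simpa using hq, fun i hi => ?_⟩
      have e : Nat.land (ms.getD (col v) 0) q = q := Nat.eq_of_beq_eq_true hq2
      have e2 : (ms.getD (col v) 0).testBit i = true := by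
        have e3 : ((ms.getD (col v) 0) &&& q).testBit i = true := by
          have : (ms.getD (col v) 0) &&& q = q := e
          rw [this]; exact hi
        rw [Nat.testBit_land, Bool.and_eq_true] at e3
        exact e3.1
      have := (hms (col v) (hcol v) i).1 e2
      simpa using this
    · have h2 : 2 * 2 ^ v = 2 ^ (v + 1) := by rw [pow_succ]; ring
      rw [h2] at h1
      have hms' : ∀ c < r, ∀ i, ((ms.set (col v) (Nat.lor (ms.getD (col v) 0) (2 ^ v))).getD c 0).testBit i = true ↔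
          (i < v + 1 ∧ col i = c) := by
        intro c hc i
        by_cases hcv : c = col v
        · subst hcv
          have : (ms.set (col v) (Nat.lor (ms.getD (col v) 0) (2 ^ v))).getD (col v) 0 =
              (ms.getD (col v) 0) ||| (2 ^ v) := by
            rw [List.getD_eq_getElem?_getD, List.getElem?_set_self (by omega)]
            rfl
          rw [this, Nat.testBit_lor, Bool.or_eq_true, hms _ hc, Nat.testBit_two_pow]
          simp only [decide_eq_true_eq]
          constructor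
          · rintro (⟨a, b⟩ | a)
            · exact ⟨by omega, b⟩
            · subst a; exact ⟨by omega, rfl⟩
          · rintro ⟨a, b⟩
            rcases Nat.lt_succ_iff_lt_or_eq.1 a with a | a
            · exact Or.inl ⟨a, b⟩
            · exact Or.inr a.symm
        · have : (ms.set (col v) (Nat.lor (ms.getD (col v) 0) (2 ^ v))).getD c 0 = ms.getD c 0 := by
            rw [List.getD_eq_getElem?_getD, List.getElem?_set_ne (fun h => hcv h.symm), List.getD_eq_getElem?_getD]
          rw [this, hms c hc]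
          constructor
          · rintro ⟨a, b⟩; exact ⟨by omega, b⟩
          · rintro ⟨a, b⟩
            refine ⟨?_, b⟩
            rcases Nat.lt_succ_iff_lt_or_eq.1 a with a | a
            · exact a
            · subst a; exact absurd b.symm hcv
      obtain ⟨u, hu, q, hq, hq2⟩ := ih (v + 1) _ (by simp [hlen]) hms' h1
      refine ⟨u + 1, by simpa using hu, q, by simpa using hq, fun i hi => ?_⟩
      have := hq2 i hi
      have e : v + 1 + u = v + (u + 1) := by ring
      rw [e] at this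
      exact this

/-- forbidden pairs, grouped by the largest index -/
def byv (n : ℕ) (cs : List Cert) : List (List ℕ) :=
  (List.range n).map fun v => (cs.filter fun c => c.k == v).map fun c => Nat.lor (2 ^ c.i) (2 ^ c.j)

/-- among every four polygons three have a common point of `W` -/
def chk43 (n : ℕ) (W : List ((ℤ × ℤ) × ℕ)) : Bool :=
  (List.range n).all fun d => (List.range d).all fun c => (List.range c).all fun b => (List.range b).all fun a =>
    W.any fun w =>
      (w.2.testBit a && w.2.testBit b && w.2.testBit c) || (w.2.testBit a && w.2.testBit b && w.2.testBit d) ||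
      (w.2.testBit a && w.2.testBit c && w.2.testBit d) || (w.2.testBit b && w.2.testBit c && w.2.testBit d)

/-- the whole check -/
def chkAll (n r : ℕ) (W : List ((ℤ × ℤ) × ℕ)) (cs : List Cert) : Bool :=
  chk43 n W && (List.range n).all (fun i => W.any fun w => w.2.testBit i) && cs.all (fun c => c.ok W) &&
    search r (byv n cs) 1 (List.replicate r 0)

lemma chk43_sound {n : ℕ} {W : List ((ℤ × ℤ) × ℕ)} (h : chk43 n W = true) (I : Finset ℕ) (hI : ∀ i ∈ I, i < n)
    (hc : I.card = 4) : ∃ J ⊆ I, J.card = 3 ∧ ∃ x : Pl, ∀ i ∈ J, x ∈ K W i := by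
  classical
  let e := I.orderEmbOfFin hc
  have hm : ∀ t, e t ∈ I := fun t => Finset.orderEmbOfFin_mem I hc t
  have h01 : e 0 < e 1 := e.strictMono (by decide)
  have h12 : e 1 < e 2 := e.strictMono (by decide)
  have h23 : e 2 < e 3 := e.strictMono (by decide)
  have h3n : e 3 < n := hI _ (hm 3)
  simp only [chk43, List.all_eq_true, List.mem_range] at h
  have h1 := h (e 3) h3n (e 2) h23 (e 1) h12 (e 0) h01
  obtain ⟨w, hw, h2⟩ := List.any_eq_true.1 h1
  simp only [Bool.or_eq_true, Bool.and_eq_true] at h2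
  have key : ∀ a b c : ℕ, a ∈ I → b ∈ I → c ∈ I → a < b → b < c → w.2.testBit a = true → w.2.testBit b = true →
      w.2.testBit c = true → ∃ J ⊆ I, J.card = 3 ∧ ∃ x : Pl, ∀ i ∈ J, x ∈ K W i := by
    intro a b c ha hb hc hab hbc ta tb tc
    refine ⟨{a, b, c}, ?_, ?_, pt w.1, ?_⟩
    · intro i hi
      simp only [Finset.mem_insert, Finset.mem_singleton] at hi
      rcases hi with rfl | rfl | rfl <;> assumption
    · rw [Finset.card_insert_of_notMem, Finset.card_insert_of_notMem, Finset.card_singleton]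
      · simp only [Finset.mem_singleton]; omega
      · simp only [Finset.mem_insert, Finset.mem_singleton]; omega
    · intro i hi
      simp only [Finset.mem_insert, Finset.mem_singleton] at hi
      rcases hi with rfl | rfl | rfl
      · exact mem_K hw ta
      · exact mem_K hw tb
      · exact mem_K hw tc
  rcases h2 with ((⟨⟨a, b⟩, c⟩ | ⟨⟨a, b⟩, c⟩) | ⟨⟨a, b⟩, c⟩) | ⟨⟨a, b⟩, c⟩
  · exact key _ _ _ (hm 0) (hm 1) (hm 2) h01 h12 a b c
  · exact key _ _ _ (hm 0) (hm 1) (hm 3) h01 (h12.trans h23) a b c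
  · exact key _ _ _ (hm 0) (hm 2) (hm 3) (h01.trans h12) h23 a b c
  · exact key _ _ _ (hm 1) (hm 2) (hm 3) h12 h23 a b c

lemma cover_sound {n r : ℕ} {W : List ((ℤ × ℤ) × ℕ)} {cs : List Cert} (h1 : cs.all (fun c => c.ok W) = true)
    (h2 : search r (byv n cs) 1 (List.replicate r 0) = true) (P : Finset Pl) (hP : P.card ≤ r) :
    ∃ i < n, ∀ p ∈ P, p ∉ K W i := by
  classical
  by_contra hcon
  push Not at hcon
  -- n is positive, hence P is not empty
  have hn : 0 < n := by
    rcases Nat.eq_zero_or_pos n with h | h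
    · subst h; simp [byv, search] at h2
    · exact h
  obtain ⟨p0, hp0, -⟩ := hcon 0 hn
  have hr : 0 < r := lt_of_lt_of_le (Finset.card_pos.2 ⟨p0, hp0⟩) hP
  -- enumerate P
  let e := P.equivFin
  let pcol : ℕ → Pl := fun i => if h : i < n then Classical.choose (hcon i h) else p0
  have hpc : ∀ i, pcol i ∈ P := by
    intro i
    by_cases h : i < n
    · simp only [pcol, h, dite_true]; exact (Classical.choose_spec (hcon i h)).1
    · simp only [pcol, h, dite_false]; exact hp0
  have hpK : ∀ i, i < n → pcol i ∈ K W i := by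
    intro i h
    simp only [pcol, h, dite_true]; exact (Classical.choose_spec (hcon i h)).2
  let col : ℕ → ℕ := fun i => (e ⟨pcol i, hpc i⟩ : ℕ)
  have hcol : ∀ i, col i < r := fun i => lt_of_lt_of_le (e ⟨pcol i, hpc i⟩).2 hP
  have hcol2 : ∀ i j, col i = col j → pcol i = pcol j := by
    intro i j hij
    have : e ⟨pcol i, hpc i⟩ = e ⟨pcol j, hpc j⟩ := Fin.ext hij
    have := e.injective this
    exact congrArg Subtype.val this
  obtain ⟨u, hu, q, hq, hq2⟩ := search_sound r col hcol (byv n cs) 0 (List.replicate r 0) (by simp)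
    (by
      intro c hc i
      have : (List.replicate r 0).getD c 0 = 0 := by
        rw [List.getD_eq_getElem?_getD, List.getElem?_replicate]
        simp [hc]
      rw [this]; simp)
    (by simpa using h2)
  have hun : u < n := by simpa [byv] using hu
  simp only [byv, List.getElem_map, List.getElem_range] at hq
  obtain ⟨c, hc, rfl⟩ := List.mem_map.1 hq
  rw [List.mem_filter] at hc
  have hk : c.k = u := by simpa using hc.2
  have hok := (List.all_eq_true.1 h1) c hc.1
  have hi := hq2 c.i (by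
    change (2 ^ c.i ||| 2 ^ c.j).testBit c.i = true
    rw [Nat.testBit_lor, Nat.testBit_two_pow_self]; rfl)
  have hj := hq2 c.j (by
    change (2 ^ c.i ||| 2 ^ c.j).testBit c.j = true
    rw [Nat.testBit_lor, Nat.testBit_two_pow_self, Bool.or_true])
  rw [zero_add] at hi hj
  have ei := hcol2 _ _ hi.2
  have ej := hcol2 _ _ hj.2
  refine Cert.sound hok (pcol u) ⟨?_, ?_, ?_⟩
  · rw [← ei]; exact hpK _ (by omega)
  · rw [← ej]; exact hpK _ (by omega)
  · rw [hk]; exact hpK _ hun

/-- soundness of the check -/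
theorem main {n r : ℕ} {W : List ((ℤ × ℤ) × ℕ)} {cs : List Cert} (h : chkAll n r W cs = true) (hr : 3 ≤ r) :
    ∃ F : Finset (Set Pl), 4 ≤ F.card ∧ (∀ A ∈ F, Convex ℝ A ∧ IsCompact A ∧ A.Nonempty) ∧
      (∀ G ⊆ F, G.card = 4 → ∃ H ⊆ G, H.card = 3 ∧ ∃ x : Pl, ∀ A ∈ H, x ∈ A) ∧
      ∀ P : Finset Pl, P.card ≤ r → ∃ A ∈ F, ∀ p ∈ P, p ∉ A := by
  classical
  simp only [chkAll, Bool.and_eq_true] at h
  obtain ⟨⟨⟨h1, h2⟩, h3⟩, h4⟩ := h
  let F : Finset (Set Pl) := (Finset.range n).image (K W)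
  have hF : ∀ A ∈ F, Convex ℝ A ∧ IsCompact A ∧ A.Nonempty := by
    intro A hA
    obtain ⟨i, hi, rfl⟩ := Finset.mem_image.1 hA
    refine ⟨K_convex W i, K_compact W i, ?_⟩
    have := (List.all_eq_true.1 h2) i (List.mem_range.2 (Finset.mem_range.1 hi))
    obtain ⟨w, hw, hwi⟩ := List.any_eq_true.1 this
    exact ⟨_, mem_K hw hwi⟩
  have hP : ∀ P : Finset Pl, P.card ≤ r → ∃ A ∈ F, ∀ p ∈ P, p ∉ A := by
    intro P hP
    obtain ⟨i, hi, h⟩ := cover_sound h3 h4 P hP
    exact ⟨K W i, Finset.mem_image_of_mem _ (Finset.mem_range.2 hi), h⟩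
  refine ⟨F, ?_, hF, ?_, hP⟩
  · by_contra hcon
    have hc : F.card ≤ r := by omega
    let f : Set Pl → Pl := fun A => if h : A.Nonempty then h.some else 0
    obtain ⟨A, hA, h⟩ := hP (F.image f) (Finset.card_image_le.trans hc)
    have hne := (hF A hA).2.2
    have : f A ∈ A := by simp only [f, hne, dite_true]; exact hne.some_mem
    exact h _ (Finset.mem_image_of_mem f hA) this
  · intro G hG hcard
    have hex : ∀ A ∈ G, ∃ i, i < n ∧ K W i = A := by
      intro A hA
      obtain ⟨i, hi, rfl⟩ := Finset.mem_image.1 (hG hA)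
      exact ⟨i, Finset.mem_range.1 hi, rfl⟩
    let g : Set Pl → ℕ := fun A => if h : ∃ i, i < n ∧ K W i = A then Classical.choose h else 0
    have hg1 : ∀ A ∈ G, g A < n := by
      intro A hA
      have h := hex A hA
      simp only [g, h, dite_true]; exact (Classical.choose_spec h).1
    have hg2 : ∀ A ∈ G, K W (g A) = A := by
      intro A hA
      have h := hex A hA
      simp only [g, h, dite_true]; exact (Classical.choose_spec h).2
    have hinj : Set.InjOn g (G : Set (Set Pl)) := by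
      intro A hA B hB hAB
      rw [← hg2 A hA, ← hg2 B hB, hAB]
    obtain ⟨J, hJ, hJc, x, hx⟩ := chk43_sound h1 (G.image g)
      (by intro i hi; obtain ⟨A, hA, rfl⟩ := Finset.mem_image.1 hi; exact hg1 A hA)
      (by rw [Finset.card_image_of_injOn hinj, hcard])
    refine ⟨J.image (K W), ?_, ?_, x, ?_⟩
    · intro A hA
      obtain ⟨i, hi, rfl⟩ := Finset.mem_image.1 hA
      obtain ⟨B, hB, rfl⟩ := Finset.mem_image.1 (hJ hi)
      rw [hg2 B hB]; exact hB
    · rw [Finset.card_image_of_injOn, hJc]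
      intro i hi j hj hij
      obtain ⟨B, hB, rfl⟩ := Finset.mem_image.1 (hJ hi)
      obtain ⟨C, hC, rfl⟩ := Finset.mem_image.1 (hJ hj)
      simp only [hg2 B hB, hg2 C hC] at hij
      rw [hij]
    · intro A hA
      obtain ⟨i, hi, rfl⟩ := Finset.mem_image.1 hA
      exact hx i hi

end Pool.Agent.H257R5.Pierce
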